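import Pool.Agent.H219.WhC.Det

/-!
# Cyclic one-cocycles off the elements of finite order, fields of characteristic zero
-/

set_option autoImplicit false
set_option linter.unusedSectionVars false

namespace H219.WhP

open Finset
open Pool.Agent.H23R2 (InvPair IsCoc Y sum_Y_eq isCoc_of_hochschild resS finite_dvd_primes)
open H219.WhR (rest rest_coc)
open H219.WhC
open scoped Classical

variable {K : Type*} [Field K] [CharZero K] {Γ : Type*} [Group Γ] {n : ℕ}

theorem vanish_inf (A : (Matrix (Fin n) (Fin n) (MonoidAlgebra K Γ))ˣ) (s : Finset K)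
    (f : Γ → Γ → K) (hs : ∀ x y, f x y ∈ Algebra.adjoin ℤ (s : Set K))
    (hf : ∀ x y z : Γ, f (x * y) z - f x (y * z) + f (z * x) y = 0) (hf1 : ∀ g, f 1 g = 0)
    (hfin : ∀ (g h : Γ) (m : ℕ), 0 < m → (g * h) ^ m = 1 → f g h = 0)
    (hΓ : ∀ g ∈ grpF A, (∀ m : ℕ, 0 < m → g ^ m ≠ 1) →
      {p : ℕ | p.Prime ∧ ∀ j, 1 ≤ j → ∀ c ∈ grpF A, c * g * c⁻¹ ≠ g ^ p ^ j}.Infinite) :
    pairing f (A⁻¹).val A.val = 0 := by
  set S : Finset Γ := suppF A with hS
  have hA : ∀ i j g, (A.val i j).coeff g ≠ 0 → g ∈ S := fun i j g hg =>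
    Finset.mem_union_left _ (mem_supp _ i j g hg)
  have hB : ∀ i j g, ((A⁻¹).val i j).coeff g ≠ 0 → g ∈ S :=
    fun i j g hg => Finset.mem_union_right _ (mem_supp _ i j g hg)
  rw [pairing_eq f (A⁻¹).val A.val S hA hB]
  have hpair : InvPair (cf A.val) (cf (A⁻¹).val) S := invPair_units A
  have hcoc := isCoc_of_hochschild f hf
  let R₀ : Subalgebra ℤ K := Algebra.adjoin ℤ ((s ∪ coefs A : Finset K) : Set K)
  let a0 : Fin n → Fin n → Γ → R₀ := fun i j g => ⟨cf A.val i j g, cf_mem A s i j g⟩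
  let b0 : Fin n → Fin n → Γ → R₀ := fun i j g => ⟨cf (A⁻¹).val i j g, cf_mem' A s i j g⟩
  have hmono : ∀ x ∈ Algebra.adjoin ℤ (s : Set K), x ∈ R₀ := fun x hx =>
    Algebra.adjoin_mono (by intro y hy; simp only [Finset.coe_union]; exact Or.inl hy) hx
  have hpair0 : InvPair a0 b0 S :=
    invPair_of_injective (R₀.val : R₀ →+* K) Subtype.val_injective hpair
  let FΓ : Γ → Γ → R₀ := fun w x => ⟨f (x⁻¹ * w) x, hmono _ (hs _ _)⟩
  let F0 : Subgroup.closure (S : Set Γ) → Subgroup.closure (S : Set Γ) → R₀ :=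
    fun w x => FΓ w.1 x.1
  have hF0 : IsCoc F0 := by
    intro w x y
    apply Subtype.ext
    exact hcoc w.1 x.1 y.1
  have hb0 : ∀ w, F0 w w = 0 := by
    intro w
    apply Subtype.ext
    show f (w.1⁻¹ * w.1) w.1 = 0
    rw [inv_mul_cancel]
    exact hf1 _
  have hvan : ∀ (w x : Subgroup.closure (S : Set Γ)) (m : ℕ), 0 < m → w.1 ^ m = 1 →
      F0 w x = 0 := by
    intro w x m hm hw
    apply Subtype.ext
    show f (x.1⁻¹ * w.1) x.1 = 0
    apply hfin _ _ m hm
    have h1 := conj_pow (i := m) (a := x.1⁻¹) (b := w.1)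
    rw [inv_inv, hw] at h1
    rw [h1]
    group
  have htf : ∀ (p : ℕ), p.Prime → ∀ y : R₀, p • y = 0 → y = 0 := by
    intro p hp y hy
    apply Subtype.ext
    have h1 := congrArg Subtype.val hy
    have h2 : (p : K) * y.1 = 0 := by
      rw [← nsmul_eq_mul]
      exact h1
    rcases mul_eq_zero.1 h2 with h3 | h3
    · exact absurd (by exact_mod_cast h3) hp.ne_zero
    · exact h3
  have hmain := cyc_mainC (invPair_res hpair0) hF0 hb0 (by
    rintro g hg ⟨x0, hx0⟩ x hx
    have hx' : x.1 ≠ 0 := fun h0 => hx (Subtype.ext h0)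
    have hfin' := (finite_dvd_primes (s ∪ coefs A) x.1 hx').union (Set.finite_singleton 2)
    have hinf := hΓ g.1 g.2 (fun m hm h0 => hx0 (hvan g x0 m hm h0))
    obtain ⟨p, hp, hpn⟩ := (hinf.sdiff hfin').nonempty
    refine ⟨p, hp.1, ?_, htf p hp.1, ?_, ?_⟩
    · rintro rfl
      exact hpn (Or.inr rfl)
    · intro y hy
      apply hpn
      left
      refine ⟨hp.1, y.1, y.2, ?_⟩
      rw [← hy, ← nsmul_eq_mul]
      rfl
    · intro j hj c hc
      exact hp.2 j hj c.1 c.2 (by simpa using congrArg Subtype.val hc))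
  have hzero : DsumR (rescR S a0) (rescR S b0) (resS S) (rest (ConjClasses.mk 1) F0) = 0 := by
    unfold DsumR
    apply Finset.sum_eq_zero
    intro y _
    have h1 : rest (ConjClasses.mk 1) F0 ((y.2.2.1 : Subgroup.closure (S : Set Γ)) *
        (y.2.2.2 : Subgroup.closure (S : Set Γ))) (y.2.2.1 : Subgroup.closure (S : Set Γ)) = 0 := by
      unfold rest
      split_ifs with hw
      · rw [ConjClasses.mk_eq_mk_iff_isConj, isConj_one_left] at hw
        exact hvan _ _ 1 one_pos (by rw [hw]; simp)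
      · rfl
    rw [h1, smul_zero]
  rw [hzero, DsumR_res (S := S) a0 b0 F0 FΓ (fun w x => rfl)] at hmain
  have hcoe : ∀ G : Γ → Γ → R₀, (DsumR a0 b0 S G : R₀).1 =
      DsumR (cf A.val) (cf (A⁻¹).val) S (fun w x => (G w x).1) := by
    intro G
    unfold DsumR
    have h1 : ∀ (t : Finset (Y (Fin n) S)) (h : Y (Fin n) S → R₀),
        (∑ y ∈ t, h y : R₀).1 = ∑ y ∈ t, (h y).1 := by
      intro t h
      exact map_sum R₀.val h t
    rw [h1]
    rfl
  have h2 := congrArg Subtype.val hmain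
  rw [hcoe] at h2
  exact h2

end H219.WhP
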