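import Pool.Agent.H219.WhH.CharP

/-!
# The Frobenius relation modulo `p` for all primes, for functions vanishing on cyclic pairs
-/

set_option autoImplicit false
set_option linter.unusedSectionVars false

namespace H219.WhP

open Finset
open H219.WhC hiding frobenius_relation sum_PsiU sum_PsiV
open Pool.Agent.H23R2 hiding Dsum Gf total_sum sum_PsiU sum_PsiV frobenius_relation NC_of_T
  NC_T_of_U swp swpi swpi_swp swp_swpi swp_shift swpi_shift NC_swp wt_swp U_swp Psi_const
  cf supp mem_supp pairing pairing_eq invPair_units coeff_sum'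
open H219.WhR (rest rest_coc)
open H219.WhH (exists_eval expand DsumR_pow)
open scoped Classical

section main

variable {I : Type*} [Fintype I] {Γ : Type*} [Group Γ] {p : ℕ} [Fact p.Prime]
  {M : Type*} [AddCommGroup M] [Module (ZMod p) M] {S : Finset Γ}
  {R : Type*} [CommRing R] [Module R M]

lemma Psi_const' {F : Γ → Γ → M} (hc : ∀ w, F (w ^ p) w = 0) (g : ZMod p → Γ) (hg : ¬ NC g) :
    Psi F g = 0 := by
  rw [not_NC_iff] at hg
  have hg' : g = fun _ => g 0 := funext hg
  unfold Psi
  have h : ∀ k : ZMod p, phi F g k = 0 := by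
    intro k
    rw [hg']
    simp [phi, W, pr_const, hc]
  simp_rw [h]
  simp

/-- the sum over orbits of the contributions of the target sequences vanishes -/
lemma sum_PsiU {A B : I → I → Γ → R} (h : InvPair A B S)
    {F : Γ → Γ → M} (hF : IsCoc F) (hb : ∀ w, F w w = 0) (hc : ∀ w, F (w ^ p) w = 0)
    (l : (ZMod p → Y I S) → ZMod p) (hl : ∀ o, NC o → ∀ c, l (shift c o) = l o + c) :
    ∑ o : ZMod p → Y I S with (NC o ∧ l o = 0), wt A B o • Psi F (U o) = 0 := by
  obtain ⟨κ, hκ⟩ := exists_phase (p := p) (I × Γ)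
  have h1 : ∑ o : ZMod p → Y I S with (NC o ∧ l o = 0), wt A B o • Psi F (U o) =
      ∑ o : ZMod p → Y I S with (NC (T o) ∧ l o = 0), wt A B o • Psi F (U o) := by
    symm
    apply Finset.sum_subset
    · intro o ho
      simp only [Finset.mem_filter, Finset.mem_univ, true_and] at ho ⊢
      exact ⟨NC_of_T o ho.1, ho.2⟩
    · intro o ho ho'
      simp only [Finset.mem_filter, Finset.mem_univ, true_and, not_and] at ho ho'
      rw [Psi_const' hc (U o), smul_zero]
      intro hU
      exact ho' (NC_T_of_U o hU) ho.2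
  rw [h1]
  rw [section_change (fun o : ZMod p → Y I S => NC (T o))
    (fun o ho c => by rw [T_shift]; exact NC_shift_of c _ ho) l (fun o => κ (T o))
    (fun o ho c => hl o (NC_of_T o ho) c)
    (fun o ho c => by rw [T_shift]; exact hκ _ ho c)
    (fun o => wt A B o • Psi F (U o))
    (fun o _ c => by rw [wt_shift, U_shift, Psi_shift hF hb])]
  set s : Finset (ZMod p → Y I S) := Finset.univ.filter (fun o => NC (T o) ∧ κ (T o) = 0) with hs
  rw [← Finset.sum_fiberwise_of_maps_to (s := s) (t := s.image T) (g := T)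
    (fun o ho => Finset.mem_image_of_mem _ ho)]
  apply Finset.sum_eq_zero
  intro t ht
  rw [Finset.mem_image] at ht
  obtain ⟨o', ho', rfl⟩ := ht
  rw [hs, Finset.mem_filter] at ho'
  have h2 : ∑ o ∈ s with T o = T o', wt A B o • Psi F (U o) =
      (∑ o : ZMod p → Y I S with T o = T o', wt A B o) • Psi F (U o') := by
    rw [Finset.sum_smul]
    rw [hs, Finset.filter_filter]
    apply Finset.sum_congr
    · ext o
      simp only [Finset.mem_filter, Finset.mem_univ, true_and]
      constructor
      · exact fun hh => hh.2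
      · intro hh
        rw [hh]; exact ⟨ho'.2, rfl⟩
    · intro o ho
      rw [Finset.mem_filter] at ho
      have : U o = U o' := by
        funext k
        exact congrArg Prod.snd (congrFun ho.2 k)
      rw [this]
  rw [h2, sum_wt_fibre_NC h _ ho'.2.1, zero_smul]

lemma sum_PsiV {A B : I → I → Γ → R} (h : InvPair A B S)
    {F : Γ → Γ → M} (hF : IsCoc F) (hb : ∀ w, F w w = 0) (hc : ∀ w, F (w ^ p) w = 0)
    (l : (ZMod p → Y I S) → ZMod p) (hl : ∀ o, NC o → ∀ c, l (shift c o) = l o + c) :
    ∑ o : ZMod p → Y I S with (NC o ∧ l o = 0), wt A B o • Psi F (V o) = 0 := by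
  rw [← sum_PsiU h.symm hF hb hc (fun o => l (swpi o)) (by
    intro o ho c
    show l (swpi (shift c o)) = l (swpi o) + c
    rw [swpi_shift]
    apply hl
    rw [← NC_swp, swp_swpi]; exact ho)]
  refine Finset.sum_nbij' swp swpi ?_ ?_ ?_ ?_ ?_
  · intro o ho
    simp only [Finset.mem_filter, Finset.mem_univ, true_and] at ho ⊢
    rw [NC_swp, swpi_swp]; exact ho
  · intro o ho
    simp only [Finset.mem_filter, Finset.mem_univ, true_and] at ho ⊢
    rw [← NC_swp, swp_swpi]; exact ho
  · intro o _; exact swpi_swp o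
  · intro o _; exact swp_swpi o
  · intro o _
    rw [wt_swp, U_swp]

/-- **The Frobenius relation** -/
theorem frobenius_relation {A B : I → I → Γ → R} (h : InvPair A B S)
    {F : Γ → Γ → M} (hF : IsCoc F) (hb : ∀ w, F w w = 0) (hc : ∀ w, F (w ^ p) w = 0) :
    DsumR A B S F = DsumR (fun i j g => A i j g ^ p) (fun i j g => B i j g ^ p) S
      (fun w x => F (w ^ p) x) := by
  rw [← total_sum (p := p) h F]
  rw [← Finset.sum_filter_add_sum_filter_not (s := Finset.univ)
    (p := fun o : ZMod p → Y I S => NC o)]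
  obtain ⟨l, hl⟩ := exists_phase (p := p) (Y I S)
  have h1 : ∑ o : ZMod p → Y I S with NC o, wt A B o • Gf F o = 0 := by
    rw [sum_orbit (fun o => NC o) (fun o ho c => NC_shift_of c o ho) l hl]
    have h2 : ∀ o : ZMod p → Y I S, ∑ c : ZMod p, wt A B (shift c o) • Gf F (shift c o) =
        wt A B o • Psi F (U o) - wt A B o • Psi F (V o) := by
      intro o
      simp_rw [wt_shift]
      rw [← Finset.smul_sum, ← smul_sub]
      congr 1
      rw [show U o = fun k => la o k * lb o k from rfl,
        show V o = fun k => lb o k * la o (k + 1) from rfl, ← sum_coc hF]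
      apply Finset.sum_congr rfl
      intro c _
      unfold Gf
      rw [U_shift, W_shift, zero_add]
      congr 1
      simp [la]
    simp_rw [h2]
    rw [Finset.sum_sub_distrib, sum_PsiU h hF hb hc l hl, sum_PsiV h hF hb hc l hl, sub_zero]
  rw [h1, zero_add]
  unfold DsumR
  symm
  refine Finset.sum_bij (fun y _ => (fun _ => y : ZMod p → Y I S)) ?_ ?_ ?_ ?_
  · intro y _
    simp only [Finset.mem_filter, Finset.mem_univ, true_and]
    rw [not_NC_iff]
    intro k; rfl
  · intro y _ y' _ hyy
    exact congrFun hyy 0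
  · intro o ho
    simp only [Finset.mem_filter, Finset.mem_univ, true_and] at ho
    rw [not_NC_iff] at ho
    exact ⟨o 0, Finset.mem_univ _, by funext k; exact (ho k).symm⟩
  · intro y _
    have e1 : wt A B (fun _ => y : ZMod p → Y I S) =
        A y.1 y.2.1 y.2.2.1 ^ p * B y.2.1 y.1 y.2.2.2 ^ p := by
      unfold wt
      rw [Finset.prod_const, Finset.card_univ, ZMod.card, mul_pow]
    rw [e1]
    congr 1
    unfold Gf
    have e2 : W (U (fun _ => y : ZMod p → Y I S)) 0 = ((y.2.2.1 : Γ) * (y.2.2.2 : Γ)) ^ p := by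
      have : U (fun _ => y : ZMod p → Y I S) = fun _ => (y.2.2.1 : Γ) * (y.2.2.2 : Γ) := rfl
      rw [this]
      exact pr_const _ _ _
    rw [e2]
    rfl

end main

end H219.WhP
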