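import Pool.Agent.H219.WhP.Inf
import Pool.Agent.H23R2.Lin

/-!
# Elements of infinite order of finitely generated linear groups are not infinitely `p`-divisible
-/

set_option autoImplicit false
set_option linter.unusedSectionVars false

namespace H219.WhP

open Pool.Agent.H23R2

universe u v

section group

variable {R : Type u} [CommRing R] [IsDomain R] [IsNoetherianRing R]
  {n : Type v} [Fintype n] [DecidableEq n] {H : Type*} [Group H]

lemma not_div_inf (ψ : H →* (Matrix n n R)ˣ) (hψ : Function.Injective ψ) (m : Ideal R)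
    (hm : m ≠ ⊤) (p : ℕ) (E : ℕ) (hE0 : 0 < E)
    (hE : ∀ (X : (Matrix n n R)ˣ) (j : ℕ) (a b : n),
      ((X : Matrix n n R) ^ (E * p ^ j) - 1) a b ∈ m ^ (j + 1))
    (g : H) (hg : ∀ k : ℕ, 0 < k → g ^ k ≠ 1) : ∃ k : ℕ, ∀ x : H, x ^ (p ^ k) ≠ g := by
  by_contra hcon
  push Not at hcon
  apply hg E hE0
  apply hψ
  rw [map_one]
  apply Units.ext
  rw [Units.val_one]
  apply eq_of_congr m hm
  intro j a b
  obtain ⟨x, hx⟩ := hcon j
  rw [← hx, ← pow_mul, mul_comm (p ^ j) E, map_pow, Units.val_pow_eq_pow_val]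
  exact hE (ψ x) j a b

end group

section linear

variable {K : Type u} [Field K] [CharZero K] {N : ℕ} {H : Type v} [Group H]

theorem finite_bad_inf [Group.FG H] (φ : H →* GL (Fin N) K) (hφ : Function.Injective φ) :
    {p : ℕ | p.Prime ∧ ¬ ∀ g : H, (∀ k : ℕ, 0 < k → g ^ k ≠ 1) →
      ∃ k : ℕ, ∀ x : H, x ^ (p ^ k) ≠ g}.Finite := by
  classical
  obtain ⟨T, hT⟩ := Group.fg_def.1 (inferInstance : Group.FG H)
  let s : Finset K := T.biUnion fun t => Finset.univ.biUnion fun i : Fin N =>
    Finset.univ.biUnion fun j : Fin N => {(φ t).val i j, (φ t⁻¹).val i j}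
  let R : Subalgebra ℤ K := Algebra.adjoin ℤ (s : Set K)
  have hR : Algebra.FiniteType ℤ R := by
    rw [← Subalgebra.fg_iff_finiteType]
    exact ⟨s, rfl⟩
  have hN : IsNoetherianRing R := Algebra.FiniteType.isNoetherianRing ℤ R
  have hent : ∀ h : H, ∀ i j, (φ h).val i j ∈ R := by
    apply entries_mem φ (T : Set H) hT R
    · intro t ht i j
      apply Algebra.subset_adjoin
      simp only [s, Finset.coe_biUnion, Set.mem_iUnion]
      exact ⟨t, ht, i, by simp, j, by simp, by simp⟩
    · intro t ht i j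
      apply Algebra.subset_adjoin
      simp only [s, Finset.coe_biUnion, Set.mem_iUnion]
      exact ⟨t, ht, i, by simp, j, by simp, by simp⟩
  let ψ0 : H →* Matrix (Fin N) (Fin N) R :=
    { toFun := fun h => Matrix.of fun i j => ⟨(φ h).val i j, hent h i j⟩
      map_one' := by
        ext i j
        simp only [Matrix.of_apply, map_one, Units.val_one, Matrix.one_apply]
        split_ifs <;> rfl
      map_mul' := by
        intro x y
        ext i j
        simp only [Matrix.of_apply, map_mul, Units.val_mul, Matrix.mul_apply]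
        rw [AddSubmonoidClass.coe_finset_sum]
        rfl }
  let ψ : H →* (Matrix (Fin N) (Fin N) R)ˣ := ψ0.toHomUnits
  have hψ : Function.Injective ψ := by
    intro x y hxy
    apply hφ
    apply Units.ext
    ext i j
    have h1 : (ψ x).val i j = (ψ y).val i j := by rw [hxy]
    exact congrArg Subtype.val h1
  refine (finite_inv_primes s).subset ?_
  rintro p ⟨hp, hpbad⟩
  by_contra hcon
  apply hpbad
  have hc3 : ¬ ((p : K)⁻¹) ∈ Algebra.adjoin ℤ (s : Set K) := fun h => hcon ⟨hp, h⟩
  -- `p` is not invertible in `R`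
  have hpR : (p : R) ∈ nonunits R := by
    intro hu
    apply hc3
    obtain ⟨u, hu⟩ := hu
    have h1 : (p : R) * (u⁻¹ : Rˣ).val = 1 := by rw [← hu, Units.mul_inv]
    have h2 : (p : K) * ((u⁻¹ : Rˣ).val : K) = 1 := by
      have := congrArg Subtype.val h1
      simpa using this
    rw [inv_eq_of_mul_eq_one_right h2]
    exact ((u⁻¹ : Rˣ).val).2
  obtain ⟨m', hm', hpm'⟩ := exists_max_ideal_of_mem_nonunits hpR
  obtain ⟨q', _, _, hfin'⟩ := residue_finite R m'
  obtain ⟨E', hE0', hE'⟩ := exists_exponent (n := Fin N) m' p hpm' hfin'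
  exact fun g hg => not_div_inf ψ hψ m' hm'.ne_top p E' hE0' hE' g hg

end linear

end H219.WhP
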