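import Pool.Agent.H219.WhP.Key

/-!
# One-cocycles over fields of positive characteristic, vanishing on cyclic pairs
-/

set_option autoImplicit false
set_option linter.unusedSectionVars false

namespace H219.WhP

open Finset
open Pool.Agent.H23R2 (InvPair IsCoc Y isCoc_of_hochschild resS)
open H219.WhR (coc_pow rest rest_coc)
open H219.WhC (DsumR DsumR_res invPair_res invPair_units cf supp mem_supp pairing pairing_eq smul_p)
open H219.WhH (exists_eval expand DsumR_pow)
open scoped Classical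

section charp

variable {R : Type*} [CommRing R] {I : Type*} [Fintype I] {Γ : Type*} [Group Γ]
  {M : Type*} [AddCommGroup M] [Module R M] {p : ℕ} [hp : Fact p.Prime] [CharP R p]

/-- iterated Frobenius relation -/
theorem frob_iter {A B : I → I → Γ → R} {S : Finset Γ} (h : InvPair A B S)
    {F : Γ → Γ → M} (hF : IsCoc F) (hb : ∀ (w : Γ) (m : ℕ), 1 ≤ m → F (w ^ m) w = 0) (k : ℕ) :
    DsumR A B S F = DsumR (fun i j g => A i j g ^ p ^ k) (fun i j g => B i j g ^ p ^ k) S
      (fun w x => F (w ^ p ^ k) x) := by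
  let _ : Module (ZMod p) M := AddCommGroup.zmodModule (fun x => smul_p R x)
  induction k with
  | zero => simp
  | succ k ih =>
    have h1 : InvPair (fun i j g => A i j g ^ p ^ k) (fun i j g => B i j g ^ p ^ k) S := by
      have := h.map (iterateFrobenius R p k)
      simpa only [iterateFrobenius_def] using this
    rw [ih, frobenius_relation h1 (coc_pow hF (p ^ k))
      (fun w => hb w _ (Nat.one_le_pow _ _ hp.out.pos)) (fun w => by
        rw [← pow_mul]
        exact hb w _ (Nat.mul_pos hp.out.pos (pow_pos hp.out.pos _)))]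
    simp only [← pow_mul, ← pow_succ, ← pow_succ']

theorem class_zero {A B : I → I → Γ → R} {S : Finset Γ} (h : InvPair A B S) {g : Γ}
    (hg : ∀ j, 1 ≤ j → ∀ c : Γ, c * g * c⁻¹ ≠ g ^ p ^ j) {F : Γ → Γ → M} (hF : IsCoc F)
    (hb : ∀ (w : Γ) (m : ℕ), 1 ≤ m → F (w ^ m) w = 0) (hsupp : ∀ w x, F w x ≠ 0 → IsConj g w) :
    DsumR A B S F = 0 := by
  obtain ⟨m, hm⟩ : ∃ m : ℕ, ∀ y : Y I S,
      F (((y.2.2.1 : Γ) * y.2.2.2) ^ p ^ m) y.2.2.1 = 0 := by
    by_contra hcon
    push Not at hcon
    choose y hy using hcon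
    have hconj : ∀ k, IsConj g (((y k).2.2.1 * (y k).2.2.2 : Γ) ^ p ^ k) := fun k =>
      hsupp _ _ (hy k)
    obtain ⟨k, l, hkl, hykl⟩ := Finite.exists_ne_map_eq_of_infinite y
    have key : ∀ k l : ℕ, k < l → y k = y l → False := by
      intro k l hlt he
      have h1 := hconj k
      have h2 := hconj l
      rw [← he] at h2
      set w : Γ := (y k).2.2.1 * (y k).2.2.2 with hw
      obtain ⟨d, hd⟩ := Nat.exists_eq_add_of_lt hlt
      have h3 : w ^ p ^ l = (w ^ p ^ k) ^ p ^ (d + 1) := by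
        rw [← pow_mul, ← pow_add]
        congr 2
      obtain ⟨c, hc⟩ := isConj_iff.1 h1
      obtain ⟨e, he'⟩ := isConj_iff.1 h2
      rw [h3, ← hc, conj_pow] at he'
      apply hg (d + 1) (by omega) (c⁻¹ * e)
      rw [mul_inv_rev, inv_inv]
      calc c⁻¹ * e * g * (e⁻¹ * c) = c⁻¹ * (e * g * e⁻¹) * c := by group
        _ = c⁻¹ * (c * g ^ p ^ (d + 1) * c⁻¹) * c := by rw [he']
        _ = g ^ p ^ (d + 1) := by group
    rcases lt_or_gt_of_ne hkl with hlt | hlt
    · exact key k l hlt hykl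
    · exact key l k hlt hykl.symm
  rw [frob_iter h hF hb m]
  unfold DsumR
  apply Finset.sum_eq_zero
  intro y _
  show _ • (F (((y.2.2.1 : Γ) * y.2.2.2) ^ p ^ m) y.2.2.1) = 0
  rw [hm, smul_zero]

/-- only the pairs with product `1` contribute -/
theorem main_sum {a b : I → I → Γ → R} {T : Finset Γ} (h : InvPair a b T)
    {F : Γ → Γ → M} (hF : IsCoc F) (hb : ∀ (w : Γ) (m : ℕ), 1 ≤ m → F (w ^ m) w = 0)
    (hG : ∀ g : Γ, g ≠ 1 → ∀ j, 1 ≤ j → ∀ c : Γ, c * g * c⁻¹ ≠ g ^ p ^ j) :
    DsumR a b T F = DsumR a b T (rest (ConjClasses.mk 1) F) := by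
  let cl : Y I T → ConjClasses Γ := fun y => ConjClasses.mk ((y.2.2.1 : Γ) * y.2.2.2)
  set cls : Finset (ConjClasses Γ) := insert (ConjClasses.mk 1) (Finset.univ.image cl) with hcls
  have h1 : DsumR a b T F = ∑ C ∈ cls, DsumR a b T (rest C F) := by
    unfold DsumR
    rw [Finset.sum_comm]
    apply Finset.sum_congr rfl
    intro y _
    rw [← Finset.smul_sum]
    congr 1
    rw [Finset.sum_eq_single (cl y)]
    · unfold rest
      rw [if_pos rfl]
    · intro C _ hC
      unfold rest
      rw [if_neg (fun hh => hC hh.symm)]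
    · intro hh
      exact absurd (Finset.mem_insert_of_mem (Finset.mem_image_of_mem cl (Finset.mem_univ y))) hh
  have h2 : ∀ C : ConjClasses Γ, C ≠ ConjClasses.mk 1 → DsumR a b T (rest C F) = 0 := by
    intro C hC
    obtain ⟨g, rfl⟩ := ConjClasses.exists_rep C
    have hg1 : g ≠ 1 := by
      rintro rfl
      exact hC rfl
    refine class_zero h (hG g hg1) (rest_coc _ hF) ?_ ?_
    · intro w m hm
      unfold rest
      split_ifs
      · exact hb w m hm
      · rfl
    · intro w x hne
      unfold rest at hne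
      have h3 : ConjClasses.mk w = ConjClasses.mk g := by
        by_contra hcon
        exact hne (if_neg hcon)
      exact (ConjClasses.mk_eq_mk_iff_isConj.1 h3).symm
  rw [h1, Finset.sum_eq_single_of_mem (ConjClasses.mk 1) (Finset.mem_insert_self _ _)]
  intro C _ hC
  exact h2 C hC

end charp

section one

variable {K : Type*} [Field K] {I : Type*} [Fintype I] {H : Type*} [Group H] {p : ℕ}
  [hp : Fact p.Prime] [CharP K p]

/-- the class of `1` -/
lemma one_class (hfg : Group.FG H) (htor : ∀ x : H, x ^ p = 1 → x = 1)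
    {A B : I → I → H → K} {S : Finset H} (h : InvPair A B S) :
    ∃ γ : H, ∀ F : H → H → K, IsCoc F →
      DsumR A B S (rest (ConjClasses.mk 1) F) = F 1 γ := by
  let _ : Algebra (ZMod p) K := ZMod.algebra K p
  let _ : Module (ZMod p) K := Algebra.toModule
  let G : (Additive H →+ ZMod p) → H → H → K := fun φ w x =>
    if w = 1 then algebraMap (ZMod p) K (φ (Additive.ofMul x)) else 0
  have hconj : ∀ w x : H, x⁻¹ * w * x = 1 ↔ w = 1 := by
    intro w x
    constructor
    · intro h
      have h3 : w = x * (x⁻¹ * w * x) * x⁻¹ := by group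
      rw [h3, h]
      group
    · rintro rfl
      simp
  have hG : ∀ φ, IsCoc (G φ) := by
    intro φ w x y
    show (if w = 1 then algebraMap (ZMod p) K (φ (Additive.ofMul (x * y))) else 0) =
      (if w = 1 then algebraMap (ZMod p) K (φ (Additive.ofMul x)) else 0) +
        (if x⁻¹ * w * x = 1 then algebraMap (ZMod p) K (φ (Additive.ofMul y)) else 0)
    by_cases hw : w = 1
    · rw [if_pos hw, if_pos hw, if_pos ((hconj w x).2 hw), ofMul_mul, map_add, map_add]
    · rw [if_neg hw, if_neg hw, if_neg (fun hh => hw ((hconj w x).1 hh)), add_zero]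
  have hfix : ∀ φ w x, G φ w x ^ p = G φ w x := by
    intro φ w x
    show (if w = 1 then algebraMap (ZMod p) K (φ (Additive.ofMul x)) else 0) ^ p =
      (if w = 1 then algebraMap (ZMod p) K (φ (Additive.ofMul x)) else 0)
    split_ifs
    · rw [← map_pow, ZMod.pow_card]
    · exact zero_pow hp.out.ne_zero
  have hpow : ∀ w : H, w ^ p = 1 ↔ w = 1 := by
    intro w
    constructor
    · intro hw
      exact htor w hw
    · rintro rfl
      exact one_pow p
  have hinv : ∀ φ, DsumR A B S (G φ) ^ p = DsumR A B S (G φ) := by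
    intro φ
    have h1 := frobenius_relation h (hG φ) (by
      intro w
      show (if w = 1 then algebraMap (ZMod p) K (φ (Additive.ofMul w)) else 0) = 0
      split_ifs with hw
      · rw [hw, ofMul_one, map_zero, map_zero]
      · rfl) (by
      intro w
      show (if w ^ p = 1 then algebraMap (ZMod p) K (φ (Additive.ofMul w)) else 0) = 0
      split_ifs with hw
      · rw [(hpow w).1 hw, ofMul_one, map_zero, map_zero]
      · rfl)
    have h2 : (fun w x => G φ (w ^ p) x) = G φ := by
      funext w x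
      show (if w ^ p = 1 then algebraMap (ZMod p) K (φ (Additive.ofMul x)) else 0) =
        (if w = 1 then algebraMap (ZMod p) K (φ (Additive.ofMul x)) else 0)
      by_cases hw : w = 1
      · rw [if_pos hw, if_pos ((hpow w).2 hw)]
      · rw [if_neg hw, if_neg (fun hh => hw ((hpow w).1 hh))]
    rw [h2] at h1
    have h3 := DsumR_pow (A := A) (B := B) (S := S) (hfix φ) 1
    rw [pow_one] at h3
    rw [h3, ← h1]
  have hrange : ∀ φ, ∃ c : ZMod p, algebraMap (ZMod p) K c = DsumR A B S (G φ) := by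
    intro φ
    have h1 := (Subfield.mem_bot_iff_pow_eq_self (F := K) (p := p)).2 (hinv φ)
    rw [← ZMod.fieldRange_castHom_eq_bot p] at h1
    obtain ⟨c, hc⟩ := h1
    exact ⟨c, hc⟩
  choose l hl using hrange
  have hinj : Function.Injective (algebraMap (ZMod p) K) := (algebraMap (ZMod p) K).injective
  have hadd : ∀ φ ψ, DsumR A B S (G (φ + ψ)) = DsumR A B S (G φ) + DsumR A B S (G ψ) := by
    intro φ ψ
    unfold DsumR
    rw [← Finset.sum_add_distrib]
    apply Finset.sum_congr rfl
    intro y _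
    rw [← smul_add]
    congr 1
    show (if _ = 1 then _ else 0) = (if _ = 1 then _ else 0) + (if _ = 1 then _ else 0)
    split_ifs
    · rw [AddMonoidHom.add_apply, map_add]
    · rw [add_zero]
  have hsmul : ∀ (c : ZMod p) φ, DsumR A B S (G (c • φ)) =
      algebraMap (ZMod p) K c * DsumR A B S (G φ) := by
    intro c φ
    unfold DsumR
    rw [Finset.mul_sum]
    apply Finset.sum_congr rfl
    intro y _
    rw [smul_eq_mul, smul_eq_mul, mul_left_comm]
    congr 1
    show (if _ = 1 then algebraMap (ZMod p) K ((c • φ) _) else 0) =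
      algebraMap (ZMod p) K c * (if _ = 1 then _ else 0)
    split_ifs
    · rw [AddMonoidHom.smul_apply, smul_eq_mul, map_mul]
    · rw [mul_zero]
  let lam : (Additive H →+ ZMod p) →ₗ[ZMod p] ZMod p :=
    { toFun := l
      map_add' := by
        intro φ ψ
        apply hinj
        rw [hl, hadd, map_add, hl, hl]
      map_smul' := by
        intro c φ
        apply hinj
        rw [hl, hsmul, RingHom.id_apply, smul_eq_mul, map_mul, hl] }
  obtain ⟨γ, hγ⟩ := exists_eval hfg lam
  refine ⟨γ, fun F hF => ?_⟩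
  let b := Module.Basis.ofVectorSpace (ZMod p) K
  let T : Finset (Module.Basis.ofVectorSpaceIndex (ZMod p) K) :=
    (b.repr (F 1 γ)).support ∪
      univ.biUnion fun y : Y I S => (b.repr (F 1 (y.2.2.1 : H))).support
  let φ : Module.Basis.ofVectorSpaceIndex (ZMod p) K → (Additive H →+ ZMod p) := fun β =>
    { toFun := fun x => b.repr (F 1 x.toMul) β
      map_zero' := by
        show b.repr (F 1 1) β = 0
        rw [hF.one, map_zero, Finsupp.zero_apply]
      map_add' := by
        intro x y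
        show b.repr (F 1 (x.toMul * y.toMul)) β = b.repr (F 1 x.toMul) β + b.repr (F 1 y.toMul) β
        have e : (x.toMul : H)⁻¹ * 1 * x.toMul = 1 := by group
        rw [hF 1 x.toMul y.toMul, e, map_add, Finsupp.add_apply] }
  have hφ : ∀ β x, φ β (Additive.ofMul x) = b.repr (F 1 x) β := fun β x => rfl
  have h1 : DsumR A B S (rest (ConjClasses.mk 1) F) =
      ∑ β ∈ T, DsumR A B S (G (φ β)) * b β := by
    unfold DsumR
    simp only [Finset.sum_mul]
    rw [Finset.sum_comm]
    apply Finset.sum_congr rfl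
    intro y _
    have h2 : rest (ConjClasses.mk 1) F ((y.2.2.1 : H) * y.2.2.2) y.2.2.1 =
        ∑ β ∈ T, G (φ β) ((y.2.2.1 : H) * y.2.2.2) y.2.2.1 * b β := by
      by_cases hw : (y.2.2.1 : H) * y.2.2.2 = 1
      · have h3 : ∀ β, G (φ β) ((y.2.2.1 : H) * y.2.2.2) y.2.2.1 =
            algebraMap (ZMod p) K (b.repr (F 1 (y.2.2.1 : H)) β) := by
          intro β
          show (if (y.2.2.1 : H) * y.2.2.2 = 1 then _ else 0) = _
          rw [if_pos hw]
          rfl
        simp only [h3]
        unfold rest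
        rw [hw, if_pos rfl]
        apply expand b
        intro β hβ
        rw [Finset.mem_union, Finset.mem_biUnion]
        exact Or.inr ⟨y, Finset.mem_univ _, hβ⟩
      · have h3 : ∀ β, G (φ β) ((y.2.2.1 : H) * y.2.2.2) y.2.2.1 = 0 := by
          intro β
          show (if (y.2.2.1 : H) * y.2.2.2 = 1 then _ else 0) = _
          rw [if_neg hw]
        simp only [h3, zero_mul, Finset.sum_const_zero]
        unfold rest
        rw [if_neg]
        rw [ConjClasses.mk_eq_mk_iff_isConj, isConj_one_left]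
        exact hw
    rw [h2, Finset.smul_sum]
    apply Finset.sum_congr rfl
    intro β _
    rw [smul_eq_mul, smul_eq_mul]
    ring
  rw [h1]
  have h4 : F 1 γ = ∑ β ∈ T, algebraMap (ZMod p) K (b.repr (F 1 γ) β) * b β := by
    apply expand b
    intro β hβ
    rw [Finset.mem_union]
    exact Or.inl hβ
  rw [h4]
  apply Finset.sum_congr rfl
  intro β _
  congr 1
  rw [← hl]
  congr 1
  exact (hγ (φ β)).trans (hφ β γ)

end one

section main

variable {K : Type*} [Field K] {Γ : Type*} [Group Γ] {n p : ℕ} [hp : Fact p.Prime] [CharP K p]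

theorem charp_main (A : (Matrix (Fin n) (Fin n) (MonoidAlgebra K Γ))ˣ)
    (hΓ : ∀ H : Subgroup Γ, H.FG → ∀ g ∈ H, g ≠ 1 → g ^ p ≠ 1 ∧
      ∀ j, 1 ≤ j → ∀ c ∈ H, c * g * c⁻¹ ≠ g ^ p ^ j) :
    ∃ γ : Γ, ∀ f : Γ → Γ → K, (∀ x y z : Γ, f (x * y) z - f x (y * z) + f (z * x) y = 0) →
      (∀ (g : Γ) (m : ℕ), f (g ^ m) g = 0) →
      pairing f (A⁻¹).val A.val = f γ⁻¹ γ := by
  set S : Finset Γ := supp A.val ∪ supp (A⁻¹).val with hS
  have hA : ∀ i j g, (A.val i j).coeff g ≠ 0 → g ∈ S := fun i j g hg =>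
    Finset.mem_union_left _ (mem_supp _ i j g hg)
  have hB : ∀ i j g, ((A⁻¹).val i j).coeff g ≠ 0 → g ∈ S :=
    fun i j g hg => Finset.mem_union_right _ (mem_supp _ i j g hg)
  have hpair : InvPair (cf A.val) (cf (A⁻¹).val) S := invPair_units A
  have hH : (Subgroup.closure (S : Set Γ)).FG := ⟨S, rfl⟩
  have hfg : Group.FG (Subgroup.closure (S : Set Γ)) := (Group.fg_iff_subgroup_fg _).2 hH
  have hΓ' := hΓ _ hH
  have htor : ∀ x : Subgroup.closure (S : Set Γ), x ^ p = 1 → x = 1 := by
    intro x hx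
    by_contra hne
    exact (hΓ' x.1 x.2 (fun h0 => hne (Subtype.ext h0))).1
      (by simpa using congrArg Subtype.val hx)
  have hG : ∀ g : Subgroup.closure (S : Set Γ), g ≠ 1 → ∀ j, 1 ≤ j →
      ∀ c : Subgroup.closure (S : Set Γ), c * g * c⁻¹ ≠ g ^ p ^ j := by
    intro g hg j hj c heq
    exact (hΓ' g.1 g.2 (fun h0 => hg (Subtype.ext h0))).2 j hj c.1 c.2
      (by simpa using congrArg Subtype.val heq)
  obtain ⟨γ, hγ⟩ := one_class hfg htor (invPair_res hpair)
  refine ⟨γ.1, ?_⟩
  intro f hf hf1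
  rw [pairing_eq f (A⁻¹).val A.val S hA hB]
  have hcoc := isCoc_of_hochschild f hf
  let F0 : Subgroup.closure (S : Set Γ) → Subgroup.closure (S : Set Γ) → K :=
    fun w x => f (x.1⁻¹ * w.1) x.1
  have hF0 : IsCoc F0 := by
    intro w x y
    exact hcoc w.1 x.1 y.1
  have hb : ∀ (w : Subgroup.closure (S : Set Γ)) (m : ℕ), 1 ≤ m → F0 (w ^ m) w = 0 := by
    intro w m hm
    obtain ⟨m, rfl⟩ := Nat.exists_eq_add_of_le' hm
    show f (w.1⁻¹ * ((w ^ (m + 1) : Subgroup.closure (S : Set Γ)) : Γ)) w.1 = 0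
    rw [Subgroup.coe_pow, pow_succ', inv_mul_cancel_left]
    exact hf1 _ _
  rw [← DsumR_res (S := S) (cf A.val) (cf (A⁻¹).val) F0 (fun w x => f (x⁻¹ * w) x)
    (fun w x => rfl)]
  rw [main_sum (p := p) (invPair_res hpair) hF0 hb hG, hγ F0 hF0]
  show f (γ.1⁻¹ * (1 : Γ)) γ.1 = _
  rw [mul_one]

/-- values in vector spaces -/
theorem charp_module (A : (Matrix (Fin n) (Fin n) (MonoidAlgebra K Γ))ˣ)
    (hΓ : ∀ H : Subgroup Γ, H.FG → ∀ g ∈ H, g ≠ 1 → g ^ p ≠ 1 ∧
      ∀ j, 1 ≤ j → ∀ c ∈ H, c * g * c⁻¹ ≠ g ^ p ^ j) :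
    ∃ γ : Γ, ∀ (M : Type*) [AddCommGroup M] [Module K M] (f : Γ → Γ → M),
      (∀ x y z : Γ, f (x * y) z - f x (y * z) + f (z * x) y = 0) →
      (∀ (g : Γ) (m : ℕ), f (g ^ m) g = 0) →
      pairing f (A⁻¹).val A.val = f γ⁻¹ γ := by
  obtain ⟨γ, hγ⟩ := charp_main (p := p) A hΓ
  refine ⟨γ, ?_⟩
  intro M _ _ f hf hf1
  rw [← sub_eq_zero, ← Module.forall_dual_apply_eq_zero_iff K]
  intro l
  have h1 := hγ (fun x y => l (f x y)) (by
    intro x y z
    rw [← map_sub, ← map_add, hf, map_zero]) (by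
    intro g m
    rw [hf1, map_zero])
  have h2 : l (pairing f (A⁻¹).val A.val) = pairing (fun x y => l (f x y)) (A⁻¹).val A.val := by
    unfold pairing
    simp only [Finsupp.sum, map_sum, map_smul]
  rw [map_sub, h2, h1, sub_self]

end main

end H219.WhP
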